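import Mathlib

/-!
# CB, T-TRI: coprime tuples in a factorial ring
-/

set_option autoImplicit false

namespace Pool.Agent.Helper49.CB

open Finset Polynomial

/-- no irreducible element divides all members of the tuple -/
def Cop {R : Type*} [CommRing R] (T : Finset R) : Prop := ∀ q : R, Irreducible q → ∃ f ∈ T, ¬ q ∣ f

section UFD

variable {A : Type*} [CommRing A] [IsDomain A] [UniqueFactorizationMonoid A]

theorem irreducible_C {q : A} (hq : Irreducible q) : Irreducible (C q : A[X]) := by
  have h1 : Prime q := UniqueFactorizationMonoid.irreducible_iff_prime.1 hq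
  exact (Polynomial.prime_C_iff.2 h1).irreducible

open Classical in
/-- the coefficients of all members of a coprime tuple -/
theorem cop_coeffs {T : Finset A[X]} (hT : Cop T) : Cop (T.biUnion Polynomial.coeffs) := by
  intro q hq
  obtain ⟨f, hf, hfq⟩ := hT (C q) (irreducible_C hq)
  rw [Polynomial.C_dvd_iff_dvd_coeff] at hfq
  push Not at hfq
  obtain ⟨i, hi⟩ := hfq
  refine ⟨f.coeff i, ?_, hi⟩
  rw [mem_biUnion]
  refine ⟨f, hf, ?_⟩
  apply Polynomial.coeff_mem_coeffs
  intro h0
  rw [h0] at hi
  exact hi (dvd_zero q)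

omit [UniqueFactorizationMonoid A] in
/-- the coefficients of an irreducible polynomial -/
theorem cop_coeffs_of_irreducible {P : A[X]} (hP : Irreducible P) (hd : P.natDegree ≠ 0) :
    Cop P.coeffs := by
  intro q hq
  have h1 : P.IsPrimitive := hP.isPrimitive hd
  have h2 : ¬ C q ∣ P := fun h => hq.not_isUnit (h1 q h)
  rw [Polynomial.C_dvd_iff_dvd_coeff] at h2
  push Not at h2
  obtain ⟨i, hi⟩ := h2
  refine ⟨P.coeff i, ?_, hi⟩
  apply Polynomial.coeff_mem_coeffs
  intro h0
  rw [h0] at hi
  exact hi (dvd_zero q)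

/-- an irreducible polynomial over the fraction field comes from an irreducible polynomial -/
theorem exists_irr_of_frac {F : Type*} [Field F] [Algebra A F] [IsFractionRing A F] {π : F[X]}
    (hπ : Irreducible π) (T : Finset A[X]) (h : ∀ f ∈ T, π ∣ f.map (algebraMap A F)) :
    ∃ q : A[X], Irreducible q ∧ ∀ f ∈ T, q ∣ f := by
  classical
  letI : NormalizedGCDMonoid A := Classical.choice inferInstance
  -- clear denominators
  obtain ⟨⟨b, hb⟩, hbm⟩ := IsLocalization.integerNormalization_map_to_map (nonZeroDivisors A) π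
  set g := IsLocalization.integerNormalization (nonZeroDivisors A) π with hg
  have hb0 : (algebraMap A F b) ≠ 0 := by
    rw [Ne, FaithfulSMul.algebraMap_eq_zero_iff]
    exact nonZeroDivisors.ne_zero hb
  have hgm : g.map (algebraMap A F) = C (algebraMap A F b) * π := by
    rw [hbm]
    show b • π = _
    rw [← algebraMap_smul F b π, Polynomial.smul_eq_C_mul]
  have hg0 : g ≠ 0 := by
    intro h0
    rw [h0, Polynomial.map_zero] at hgm
    rcases mul_eq_zero.1 hgm.symm with h1 | h1
    · exact hb0 (Polynomial.C_eq_zero.1 h1)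
    · exact hπ.ne_zero h1
  have hc0 : algebraMap A F g.content ≠ 0 := by
    rw [Ne, FaithfulSMul.algebraMap_eq_zero_iff, Polynomial.content_eq_zero_iff]
    exact hg0
  have hq1 : g.map (algebraMap A F) = C (algebraMap A F g.content) *
      g.primPart.map (algebraMap A F) := by
    conv_lhs => rw [g.eq_C_content_mul_primPart]
    rw [Polynomial.map_mul, Polynomial.map_C]
  have hass : Associated π (g.primPart.map (algebraMap A F)) := by
    have h1 : Associated (C (algebraMap A F b) * π) π := by
      have hu : IsUnit (C (algebraMap A F b) : F[X]) := Polynomial.isUnit_C.2 (isUnit_iff_ne_zero.2 hb0)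
      exact associated_unit_mul_left _ _ hu
    have h2 : Associated (C (algebraMap A F g.content) * g.primPart.map (algebraMap A F))
        (g.primPart.map (algebraMap A F)) := by
      have hu : IsUnit (C (algebraMap A F g.content) : F[X]) :=
        Polynomial.isUnit_C.2 (isUnit_iff_ne_zero.2 hc0)
      exact associated_unit_mul_left _ _ hu
    rw [← hgm, hq1] at h1
    exact h1.symm.trans h2
  have hprim := g.isPrimitive_primPart
  refine ⟨g.primPart, ?_, ?_⟩
  · rw [hprim.irreducible_iff_irreducible_map_fraction_map (K := F)]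
    exact hass.irreducible_iff.1 hπ
  · intro f hf
    rcases eq_or_ne f 0 with rfl | hf0
    · exact dvd_zero _
    have h1 : g.primPart.map (algebraMap A F) ∣ f.map (algebraMap A F) :=
      hass.symm.dvd.trans (h f hf)
    have hcf : algebraMap A F f.content ≠ 0 := by
      rw [Ne, FaithfulSMul.algebraMap_eq_zero_iff, Polynomial.content_eq_zero_iff]
      exact hf0
    have h2 : f.map (algebraMap A F) = C (algebraMap A F f.content) *
        f.primPart.map (algebraMap A F) := by
      conv_lhs => rw [f.eq_C_content_mul_primPart]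
      rw [Polynomial.map_mul, Polynomial.map_C]
    have hu : IsUnit (C (algebraMap A F f.content) : F[X]) :=
      Polynomial.isUnit_C.2 (isUnit_iff_ne_zero.2 hcf)
    rw [h2, hu.dvd_mul_left] at h1
    have h3 : g.primPart ∣ f.primPart :=
      hprim.dvd_of_fraction_map_dvd_fraction_map h1
    rw [f.eq_C_content_mul_primPart]
    exact h3.mul_left _

/-- **Bezout** for a coprime tuple -/
theorem cop_bezout (T : Finset A[X]) (hT : Cop T) :
    ∃ (h : A[X] → A[X]) (ρ : A), ρ ≠ 0 ∧ ∑ f ∈ T, h f * f = C ρ := by
  classical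
  set F := FractionRing A with hF
  set I : Ideal F[X] := Ideal.span (Set.range (fun f : T => (f : A[X]).map (algebraMap A F)))
    with hI
  have hIt : I = ⊤ := by
    by_contra hne
    obtain ⟨M, hM, hIM⟩ := Ideal.exists_le_maximal I hne
    obtain ⟨π, hπ⟩ := (IsPrincipalIdealRing.principal M).principal
    have hπ' : M = Ideal.span {π} := hπ
    have hM0 : M ≠ ⊥ := Ring.ne_bot_of_isMaximal_of_not_isField hM (Polynomial.not_isField F)
    have hπ0 : π ≠ 0 := by
      rintro rfl
      apply hM0
      rw [hπ', Ideal.span_singleton_eq_bot]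
    have hprime : Prime π := by
      rw [← Ideal.span_singleton_prime hπ0, ← hπ']
      exact hM.isPrime
    obtain ⟨q, hq, hqd⟩ := exists_irr_of_frac hprime.irreducible T (fun f hf => by
      rw [← Ideal.mem_span_singleton, ← hπ']
      exact hIM (Ideal.subset_span ⟨⟨f, hf⟩, rfl⟩))
    obtain ⟨f, hf, hfq⟩ := hT q hq
    exact hfq (hqd f hf)
  have h1 : (1 : F[X]) ∈ I := by rw [hIt]; trivial
  rw [hI, Ideal.mem_span_range_iff_exists_fun] at h1
  obtain ⟨c, hc⟩ := h1
  have hden : ∀ f : T, ∃ (b : A) (g : A[X]), b ≠ 0 ∧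
      g.map (algebraMap A F) = C (algebraMap A F b) * c f := by
    intro f
    obtain ⟨⟨b, hb⟩, hbm⟩ := IsLocalization.integerNormalization_map_to_map (nonZeroDivisors A) (c f)
    refine ⟨b, _, nonZeroDivisors.ne_zero hb, hbm.trans ?_⟩
    show b • c f = _
    rw [← algebraMap_smul F b (c f), Polynomial.smul_eq_C_mul]
  choose b g hb0 hg using hden
  have hinj : Function.Injective (Polynomial.map (algebraMap A F)) :=
    Polynomial.map_injective _ (IsFractionRing.injective A F)
  refine ⟨fun f => if hf : f ∈ T then C (∏ x ∈ Finset.univ.erase (⟨f, hf⟩ : T), b x) * g ⟨f, hf⟩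
    else 0, ∏ x : T, b x, Finset.prod_ne_zero_iff.2 (fun x _ => hb0 x), ?_⟩
  rw [← Finset.sum_coe_sort T]
  apply hinj
  rw [Polynomial.map_sum, Polynomial.map_C]
  have h2 : ∀ x : T, (C (algebraMap A F (∏ y : T, b y)) : F[X]) * (c x * (x : A[X]).map (algebraMap A F)) =
      Polynomial.map (algebraMap A F) ((fun f => if hf : f ∈ T then
        C (∏ x ∈ Finset.univ.erase (⟨f, hf⟩ : T), b x) * g ⟨f, hf⟩ else 0) (x : A[X]) * (x : A[X])) := by
    intro x
    have e1 : (fun f => if hf : f ∈ T then
        C (∏ x ∈ Finset.univ.erase (⟨f, hf⟩ : T), b x) * g ⟨f, hf⟩ else 0) (x : A[X]) =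
        C (∏ y ∈ Finset.univ.erase x, b y) * g x := dif_pos x.2
    rw [e1, Polynomial.map_mul, Polynomial.map_mul, Polynomial.map_C, hg x,
      ← Finset.mul_prod_erase Finset.univ b (Finset.mem_univ x), map_mul, Polynomial.C_mul]
    ring
  rw [← Finset.sum_congr rfl (fun x _ => h2 x), ← Finset.mul_sum, hc, mul_one]

/-- transport along a ring equivalence -/
theorem cop_map {R S : Type*} [CommRing R] [CommRing S] [DecidableEq S] (φ : R ≃+* S)
    {T : Finset R} (hT : Cop T) : Cop (T.image φ) := by
  intro q hq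
  have hq' : Irreducible (φ.symm q) := (MulEquiv.irreducible_iff φ.symm).2 hq
  obtain ⟨f, hf, hfq⟩ := hT _ hq'
  refine ⟨φ f, mem_image_of_mem _ hf, fun h => hfq ?_⟩
  have := map_dvd φ.symm h
  rwa [RingEquiv.symm_apply_apply] at this

end UFD

end Pool.Agent.Helper49.CB
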