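import Pool.Agent.Helper8.CB.Cof

/-!
# CB, T-TRI: the cofactor ideal of a bad place, for an arbitrary residue `y` modulo `m1 ^ k`
-/

set_option autoImplicit false

namespace Pool.Agent.Helper49.CB

open NumberField Pool.Agent.Helper4.CB

section Dedekind

variable {R : Type*} [CommRing R] [IsDomain R] [IsDedekindDomain R]

/-- the part of `I` prime to `M` -/
theorem part_coprime {I Y I2 M : Ideal R} (hY0 : Y ≠ ⊥) {k : ℕ} (h1 : Y = I ⊔ M ^ k)
    (h2 : Y = I ⊔ M ^ (k + 1)) (h : I = Y * I2) : I2 ⊔ M = ⊤ := by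
  by_contra hne
  obtain ⟨p, hp, hle⟩ := Ideal.exists_le_maximal _ hne
  have hI2 : I2 ≤ p := le_sup_left.trans hle
  have hM : M ≤ p := le_sup_right.trans hle
  have hMY : M ^ k ≤ Y := by
    rw [h1]
    exact le_sup_right
  have h3 : Y ≤ Y * p := by
    have h4 : I ⊔ M ^ (k + 1) ≤ Y * p := by
      apply sup_le
      · rw [h]
        exact Ideal.mul_mono_right hI2
      · rw [pow_succ]
        exact Ideal.mul_mono hMY hM
    exact h2.le.trans h4
  have h5 : Y * p = Y * ⊤ := by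
    rw [Ideal.mul_top]
    exact le_antisymm Ideal.mul_le_left h3
  exact hp.ne_top (mul_left_cancel₀ hY0 h5)

end Dedekind

variable {K : Type} [Field K] [NumberField K]

theorem exists_stable (I : Ideal (𝓞 K)) (hI : I ≠ ⊥) (m : 𝓞 K) :
    ∃ k : ℕ, I ⊔ Ideal.span {m} ^ k = I ⊔ Ideal.span {m} ^ (k + 1) := by
  have : Finite (𝓞 K ⧸ I) := Ideal.finiteQuotientOfFreeOfNeBot I hI
  obtain ⟨i, j, hij, he⟩ := Finite.exists_ne_map_eq_of_infinite
    (fun k : ℕ => Ideal.Quotient.mk I (m ^ k))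
  wlog hlt : i < j generalizing i j with H
  · exact H j i hij.symm he.symm (lt_of_le_of_ne (not_lt.1 hlt) hij.symm)
  refine ⟨i, le_antisymm (sup_le le_sup_left ?_) (sup_le le_sup_left ?_)⟩
  · rw [Ideal.span_singleton_pow, Ideal.span_singleton_pow, Ideal.span_singleton_le_iff_mem]
    have h1 : m ^ i - m ^ j ∈ I := Ideal.Quotient.eq.1 he
    have h2 : m ^ j ∈ Ideal.span {m ^ (i + 1)} :=
      Ideal.mem_span_singleton.2 (pow_dvd_pow m hlt)
    have h3 : m ^ i = (m ^ i - m ^ j) + m ^ j := by ring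
    rw [h3]
    exact Submodule.add_mem_sup h1 h2
  · rw [pow_succ]
    exact Ideal.mul_le_left.trans le_sup_right

/-- an ideal prime to `m` has norm prime to `m` -/
theorem absNorm_coprime {I : Ideal (𝓞 K)} (hI : I ≠ ⊥) {m : ℕ}
    (h : I ⊔ Ideal.span {(m : 𝓞 K)} = ⊤) : (Ideal.absNorm I).Coprime m := by
  by_contra hc
  obtain ⟨p, hp, hp1, hp2⟩ := Nat.Prime.not_coprime_iff_dvd.1 hc
  have : Fact p.Prime := ⟨hp⟩
  have : Finite (𝓞 K ⧸ I) := Ideal.finiteQuotientOfFreeOfNeBot I hI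
  rw [Ideal.absNorm_apply, Submodule.cardQuot_apply] at hp1
  obtain ⟨z, hz⟩ := exists_prime_addOrderOf_dvd_card' p hp1
  have h0 : p • z = 0 := by rw [← hz]; exact addOrderOf_nsmul_eq_zero z
  obtain ⟨z, rfl⟩ := Ideal.Quotient.mk_surjective z
  have h1 : (1 : 𝓞 K) ∈ I ⊔ Ideal.span {(m : 𝓞 K)} := by rw [h]; trivial
  obtain ⟨a, ha, b, hb, hab⟩ := Submodule.mem_sup.1 h1
  obtain ⟨c, rfl⟩ := Ideal.mem_span_singleton.1 hb
  obtain ⟨d, rfl⟩ := hp2
  have h2 : Ideal.Quotient.mk I z = 0 := by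
    have h3 : Ideal.Quotient.mk I z = Ideal.Quotient.mk I (a + ((p * d : ℕ) : 𝓞 K) * c) *
        Ideal.Quotient.mk I z := by
      rw [hab, map_one, one_mul]
    rw [h3, map_add, Ideal.Quotient.eq_zero_iff_mem.2 ha, zero_add]
    rw [nsmul_eq_mul] at h0
    have h4 : Ideal.Quotient.mk I (((p * d : ℕ) : 𝓞 K) * c) * Ideal.Quotient.mk I z =
        Ideal.Quotient.mk I ((d : 𝓞 K) * c) * ((p : 𝓞 K ⧸ I) * Ideal.Quotient.mk I z) := by
      push_cast
      simp only [map_mul, map_natCast]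
      ring
    rw [h4, h0, mul_zero]
  rw [h2, addOrderOf_zero] at hz
  exact hp.one_lt.ne' hz.symm

theorem isCoprime_cast {r m : ℕ} (h : r.Coprime m) : IsCoprime (r : 𝓞 K) (m : 𝓞 K) := by
  have h1 : IsCoprime (r : ℤ) (m : ℤ) := Nat.isCoprime_iff_coprime.2 h
  have h2 := h1.map (Int.castRingHom (𝓞 K))
  simpa using h2

/-- two numbers congruent up to a unit modulo `m ^ k` have the same part at `m` -/
theorem sup_congr {m r e k k' : ℕ} (hr : r.Coprime m) (hk : k' ≤ k) {x y : 𝓞 K}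
    (h : ((m ^ k : ℕ) : 𝓞 K) ∣ x - (r : 𝓞 K) ^ e * y) :
    Ideal.span {x} ⊔ Ideal.span {(m : 𝓞 K)} ^ k' = Ideal.span {y} ⊔ Ideal.span {(m : 𝓞 K)} ^ k' := by
  rw [Ideal.span_singleton_pow]
  have h1 : (m : 𝓞 K) ^ k' ∣ x - (r : 𝓞 K) ^ e * y := by
    refine dvd_trans ?_ h
    push_cast
    exact pow_dvd_pow _ hk
  obtain ⟨z, hz⟩ := h1
  apply le_antisymm
  · refine sup_le ?_ le_sup_right
    rw [Ideal.span_singleton_le_iff_mem]
    have : x = (r : 𝓞 K) ^ e * y + (m : 𝓞 K) ^ k' * z := by rw [← hz]; ring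
    rw [this]
    exact Submodule.add_mem_sup (Ideal.mem_span_singleton.2 (Dvd.intro_left _ rfl))
      (Ideal.mem_span_singleton.2 (Dvd.intro _ rfl))
  · refine sup_le ?_ le_sup_right
    rw [Ideal.span_singleton_le_iff_mem]
    obtain ⟨a, b, hab⟩ := (isCoprime_cast (K := K) hr).pow (m := e) (n := k')
    have : y = a * x + (m : 𝓞 K) ^ k' * (b * y - a * z) := by
      have e1 : y = (a * (r : 𝓞 K) ^ e + b * (m : 𝓞 K) ^ k') * y := by rw [hab, one_mul]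
      have e2 : x = (r : 𝓞 K) ^ e * y + (m : 𝓞 K) ^ k' * z := by rw [← hz]; ring
      rw [e2]
      linear_combination e1
    rw [this]
    exact Submodule.add_mem_sup (Ideal.mem_span_singleton.2 (Dvd.intro_left _ rfl))
      (Ideal.mem_span_singleton.2 (Dvd.intro _ rfl))

open Classical in
/-- **the cofactor ideal** -/
theorem cofG (m1 : ℕ) (hm1 : m1 ≠ 0) (h2 : 2 ∣ m1) (y : 𝓞 K) (hy : y ≠ 0) (J : ℕ) :
    ∃ k0 ey : ℕ, ey.Coprime m1 ∧ ey ≠ 0 ∧ ∀ k, k0 ≤ k → ∀ r e : ℕ, r.Coprime m1 → ∀ x : 𝓞 K,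
      ((m1 ^ k : ℕ) : 𝓞 K) ∣ x - (r : 𝓞 K) ^ e * y → x ≠ 0 ∧
      ∀ q : Pl K, (m1 : 𝓞 K) ∉ q.asIdeal → nm q ≡ 1 [MOD 2 ^ J] → x ∈ q.asIdeal →
        ∃ b : Ideal (𝓞 K), b ≠ ⊥ ∧ b ⊔ Ideal.span {((m1 ^ k : ℕ) : 𝓞 K)} = ⊤ ∧ x ∈ b ∧
          Ideal.absNorm b * nm q ≤ (Algebra.norm ℤ x).natAbs ∧
          ((Ideal.absNorm b : ZMod (2 ^ J)) =
              ((r ^ (e * Module.finrank ℚ K) * ey : ℕ) : ZMod (2 ^ J)) ∨
            (Ideal.absNorm b : ZMod (2 ^ J)) =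
              -((r ^ (e * Module.finrank ℚ K) * ey : ℕ) : ZMod (2 ^ J))) := by
  set n := Module.finrank ℚ K with hn
  have hsy : Ideal.span {y} ≠ ⊥ := by rw [Ne, Ideal.span_singleton_eq_bot]; exact hy
  obtain ⟨k1, hk1⟩ := exists_stable (Ideal.span {y}) hsy (m1 : 𝓞 K)
  set M : Ideal (𝓞 K) := Ideal.span {(m1 : 𝓞 K)} with hM
  set Y : Ideal (𝓞 K) := Ideal.span {y} ⊔ M ^ k1 with hY
  have hM0 : M ≠ ⊥ := by
    rw [hM, Ne, Ideal.span_singleton_eq_bot]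
    exact_mod_cast hm1
  have hY0 : Y ≠ ⊥ := by
    intro h0
    apply hsy
    rw [eq_bot_iff, ← h0]
    exact le_sup_left
  obtain ⟨Y2, hY2⟩ : Y ∣ Ideal.span {y} := Ideal.dvd_iff_le.2 le_sup_left
  have hY2c : Y2 ⊔ M = ⊤ := part_coprime hY0 hY hk1 hY2
  have hY20 : Y2 ≠ ⊥ := by
    rintro rfl
    apply hsy
    rw [hY2, Ideal.mul_bot]
  have hey0 : Ideal.absNorm Y2 ≠ 0 := by rw [Ne, Ideal.absNorm_eq_zero_iff]; exact hY20
  have hA0 : Ideal.absNorm Y ≠ 0 := by rw [Ne, Ideal.absNorm_eq_zero_iff]; exact hY0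
  have hYM : M ^ k1 ≤ Y := le_sup_right
  have hAm : Ideal.absNorm Y ∣ m1 ^ (k1 * n) := by
    have h3 : Ideal.absNorm Y ∣ Ideal.absNorm (M ^ k1) := Ideal.absNorm_dvd_absNorm_of_le hYM
    have h4 : Ideal.absNorm (M ^ k1) = m1 ^ (k1 * n) := by
      rw [map_pow, hM, Ideal.absNorm_span_singleton, Pool.Agent.Helper8.CB.norm_natCast,
        Int.natAbs_pow, Int.natAbs_natCast, ← pow_mul, mul_comm]
    rwa [h4] at h3
  have hm2 : 2 ≤ m1 := Nat.le_of_dvd (Nat.pos_of_ne_zero hm1) h2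
  have hMtop : M ≠ ⊤ := by
    intro h0
    have h3 : Ideal.absNorm M = 1 := by rw [h0]; simp
    rw [hM, Ideal.absNorm_span_singleton, Pool.Agent.Helper8.CB.norm_natCast,
      Int.natAbs_pow, Int.natAbs_natCast] at h3
    have : 0 < Module.finrank ℚ K := Module.finrank_pos
    have h4 : 1 < m1 ^ Module.finrank ℚ K := Nat.one_lt_pow this.ne' (by omega)
    omega
  refine ⟨max (k1 + 1) (k1 * n + J), Ideal.absNorm Y2, absNorm_coprime hY20 hY2c, hey0, ?_⟩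
  intro k hk r e hr x hx
  have hk1' : k1 + 1 ≤ k := le_trans (le_max_left _ _) hk
  have hk2' : k1 * n + J ≤ k := le_trans (le_max_right _ _) hk
  have hs1 : Y = Ideal.span {x} ⊔ M ^ k1 := by
    rw [hY, hM, sup_congr hr (by omega : k1 ≤ k) hx]
  have hs2 : Y = Ideal.span {x} ⊔ M ^ (k1 + 1) := by
    rw [hk1, hM, sup_congr hr hk1' hx]
  have hx0 : x ≠ 0 := by
    rintro rfl
    rw [Ideal.span_singleton_eq_bot.2 rfl, bot_sup_eq] at hs1 hs2
    have h3 : M ^ k1 * ⊤ = M ^ k1 * M := by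
      rw [Ideal.mul_top, ← pow_succ, ← hs1, ← hs2]
    exact hMtop (mul_left_cancel₀ (pow_ne_zero _ hM0) h3).symm
  refine ⟨hx0, fun q hmq hq hxq => ?_⟩
  have hsx : Ideal.span {x} ≠ ⊥ := by rw [Ne, Ideal.span_singleton_eq_bot]; exact hx0
  obtain ⟨X2, hX2⟩ : Y ∣ Ideal.span {x} := by
    refine Ideal.dvd_iff_le.2 ?_
    rw [hs1]
    exact le_sup_left
  have hX2c : X2 ⊔ M = ⊤ := part_coprime hY0 hs1 hs2 hX2
  have hX20 : X2 ≠ ⊥ := by
    rintro rfl
    apply hsx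
    rw [hX2, Ideal.mul_bot]
  -- the prime `q` divides `X2`
  have hqY : ¬ Y ≤ q.asIdeal := by
    intro h3
    exact hmq ((Ideal.span_singleton_le_iff_mem _).1 (q.isPrime.le_of_pow_le (hYM.trans h3)))
  have hqX : X2 ≤ q.asIdeal := by
    have h3 : Y * X2 ≤ q.asIdeal := by
      rw [← hX2]
      exact (Ideal.span_singleton_le_iff_mem _).2 hxq
    exact (q.isPrime.mul_le.1 h3).resolve_left hqY
  obtain ⟨b, hb⟩ : q.asIdeal ∣ X2 := Ideal.dvd_iff_le.2 hqX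
  have hb0 : b ≠ ⊥ := by
    rintro rfl
    apply hX20
    rw [hb, Ideal.mul_bot]
  have hX2b : X2 ≤ b := by rw [hb]; exact Ideal.mul_le_right (I := q.asIdeal)
  have hbM : b ⊔ M = ⊤ := by
    rw [eq_top_iff, ← hX2c]
    exact sup_le_sup_right hX2b _
  have hbk : b ⊔ Ideal.span {((m1 ^ k : ℕ) : 𝓞 K)} = ⊤ := by
    have h3 : IsCoprime b M := Ideal.isCoprime_iff_sup_eq.2 hbM
    have h4 := h3.pow_right (n := k)
    rw [Ideal.isCoprime_iff_sup_eq, hM, Ideal.span_singleton_pow] at h4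
    push_cast
    exact h4
  have hxb : x ∈ b := by
    have h3 : Ideal.span {x} ≤ b := by
      rw [hX2]
      exact Ideal.mul_le_right.trans hX2b
    exact (Ideal.span_singleton_le_iff_mem _).1 h3
  -- norms
  have hNx : (Algebra.norm ℤ x).natAbs = Ideal.absNorm Y * Ideal.absNorm X2 := by
    rw [← Ideal.absNorm_span_singleton, hX2, map_mul]
  have hNy : (Algebra.norm ℤ y).natAbs = Ideal.absNorm Y * Ideal.absNorm Y2 := by
    rw [← Ideal.absNorm_span_singleton, hY2, map_mul]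
  have hNX : Ideal.absNorm X2 = nm q * Ideal.absNorm b := by
    rw [hb, map_mul]
    rfl
  have hcong : ((m1 ^ k : ℕ) : ℤ) ∣ Algebra.norm ℤ x -
      (r : ℤ) ^ (e * n) * Algebra.norm ℤ y := by
    have h3 := Pool.Agent.Helper8.CB.norm_congr (m1 ^ k) hx
    rw [map_mul, map_pow, Pool.Agent.Helper8.CB.norm_natCast, ← pow_mul, mul_comm _ e] at h3
    exact h3
  have hdiv : ((2 ^ J : ℕ) : ℤ) * (Ideal.absNorm Y : ℤ) ∣ ((m1 ^ k : ℕ) : ℤ) := by
    have h3 : 2 ^ J * Ideal.absNorm Y ∣ m1 ^ k := by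
      calc 2 ^ J * Ideal.absNorm Y ∣ m1 ^ J * m1 ^ (k1 * n) :=
            mul_dvd_mul (pow_dvd_pow_of_dvd h2 J) hAm
        _ = m1 ^ (k1 * n + J) := by rw [← pow_add, add_comm]
        _ ∣ m1 ^ k := pow_dvd_pow _ hk2'
    exact_mod_cast h3
  have hA0' : (Ideal.absNorm Y : ℤ) ≠ 0 := by exact_mod_cast hA0
  -- signs
  have hsx' : Algebra.norm ℤ x = (Ideal.absNorm Y : ℤ) * Ideal.absNorm X2 ∨
      Algebra.norm ℤ x = (Ideal.absNorm Y : ℤ) * (-(Ideal.absNorm X2 : ℤ)) := by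
    rcases Int.natAbs_eq (Algebra.norm ℤ x) with h3 | h3
    · left; rw [h3, hNx]; push_cast; ring
    · right; rw [h3, hNx]; push_cast; ring
  have hsy' : Algebra.norm ℤ y = (Ideal.absNorm Y : ℤ) * Ideal.absNorm Y2 ∨
      Algebra.norm ℤ y = (Ideal.absNorm Y : ℤ) * (-(Ideal.absNorm Y2 : ℤ)) := by
    rcases Int.natAbs_eq (Algebra.norm ℤ y) with h3 | h3
    · left; rw [h3, hNy]; push_cast; ring
    · right; rw [h3, hNy]; push_cast; ring
  have hkey : ∀ s t : ℤ, Algebra.norm ℤ x = (Ideal.absNorm Y : ℤ) * s →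
      Algebra.norm ℤ y = (Ideal.absNorm Y : ℤ) * t →
      ((s : ℤ) : ZMod (2 ^ J)) = ((r ^ (e * n) : ℕ) : ZMod (2 ^ J)) * ((t : ℤ) : ZMod (2 ^ J)) := by
    intro s t hs ht
    have h3 : ((2 ^ J : ℕ) : ℤ) * (Ideal.absNorm Y : ℤ) ∣
        (s - (r : ℤ) ^ (e * n) * t) * (Ideal.absNorm Y : ℤ) := by
      refine (hdiv.trans hcong).trans (dvd_of_eq ?_)
      rw [hs, ht]; ring
    have h4 : ((2 ^ J : ℕ) : ℤ) ∣ s - (r : ℤ) ^ (e * n) * t := Int.dvd_of_mul_dvd_mul_right hA0' h3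
    have h5 := (ZMod.intCast_eq_intCast_iff_dvd_sub ((r : ℤ) ^ (e * n) * t) s (2 ^ J)).2 h4
    push_cast at h5 ⊢
    exact h5.symm
  have hq1 : (nm q : ZMod (2 ^ J)) = 1 := by
    have := (ZMod.natCast_eq_natCast_iff _ _ _).2 hq
    simpa using this
  have hX2b' : (Ideal.absNorm X2 : ZMod (2 ^ J)) = (Ideal.absNorm b : ZMod (2 ^ J)) := by
    rw [hNX]; push_cast; rw [hq1, one_mul]
  refine ⟨b, hb0, hbk, hxb, ?_, ?_⟩
  · rw [hNx, hNX]
    calc Ideal.absNorm b * nm q = 1 * (nm q * Ideal.absNorm b) := by ring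
      _ ≤ Ideal.absNorm Y * (nm q * Ideal.absNorm b) :=
          Nat.mul_le_mul_right _ (Nat.pos_of_ne_zero hA0)
  · rw [← hX2b']
    rcases hsx' with h3 | h3 <;> rcases hsy' with h4 | h4
    · left
      have := hkey _ _ h3 h4
      push_cast at this ⊢
      exact this
    · right
      have := hkey _ _ h3 h4
      push_cast at this ⊢
      rw [this]; ring
    · right
      have := hkey _ _ h3 h4
      push_cast at this ⊢
      rw [← this]; ring
    · left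
      have := hkey _ _ h3 h4
      push_cast at this ⊢
      have h5 : -(-(Ideal.absNorm X2 : ZMod (2 ^ J))) = _ := congrArg Neg.neg this
      rw [neg_neg] at h5
      rw [h5]; ring

end Pool.Agent.Helper49.CB
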