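import Pool.Agent.Helper4.CB.SYS

/-!
# CB, piece V: the product of the sieve
-/

set_option autoImplicit false

namespace Pool.Agent.Helper49.CB

open Finset Pool.Agent.Helper4.CB

variable {N : ℕ} {G : Type} [AddCommGroup G]

theorem exp_le_one_sub {g : ℝ} (h0 : 0 ≤ g) (h1 : g ≤ 1 / 2) : Real.exp (-(2 * g)) ≤ 1 - g := by
  have h2 : (1 : ℝ) + 2 * g ≤ Real.exp (2 * g) := by
    have := Real.add_one_le_exp (2 * g)
    linarith
  rw [Real.exp_neg, inv_le_iff_one_le_mul₀ (Real.exp_pos _)]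
  have h3 : (1 - g) * (1 + 2 * g) ≤ (1 - g) * Real.exp (2 * g) :=
    mul_le_mul_of_nonneg_left h2 (by linarith)
  nlinarith

theorem mert_max {S : Sys N G} {C : ℝ} (h : S.Mert C) : S.Mert (max C 0) := by
  intro x y hx hxy
  refine (h x y hx hxy).trans ?_
  have h1 : (0 : ℝ) < x := by exact_mod_cast hx
  have h2 : Real.log x ≤ Real.log y := Real.log_le_log h1 (by exact_mod_cast hxy)
  exact mul_le_mul_of_nonneg_right (le_max_left _ _) (by linarith)

open Classical in
/-- the sum of the densities over `x < nm q ≤ y` -/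
theorem sum_g_le (S : Sys N G) {C : ℝ} (hC : 0 ≤ C) (h : S.Mert C) {x y : ℕ} (hx : 2 ≤ x)
    (hxy : x ≤ y) :
    ∑ q ∈ (S.le y).filter (fun q => x < S.nm q), S.g q ≤
      S.D * (C * (Real.log y - Real.log x + 1) / Real.log x) := by
  have hx0 : (1 : ℝ) < x := by exact_mod_cast hx
  have hlog : 0 < Real.log x := Real.log_pos hx0
  have h1 : ∀ q ∈ (S.le y).filter (fun q => x < S.nm q),
      S.g q ≤ S.D * ((Real.log (S.nm q) / S.nm q) / Real.log x) := by
    intro q hq
    rw [mem_filter] at hq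
    have hn : (0 : ℝ) < S.nm q := by
      have := S.two_le q
      positivity
    have h2 : Real.log x ≤ Real.log (S.nm q) :=
      Real.log_le_log (by linarith) (by exact_mod_cast hq.2.le)
    refine (S.g_le q).trans ?_
    rw [div_eq_mul_inv]
    refine mul_le_mul_of_nonneg_left ?_ (Nat.cast_nonneg _)
    rw [le_div_iff₀ hlog, div_eq_mul_inv, mul_comm]
    exact mul_le_mul_of_nonneg_right h2 (inv_nonneg.2 hn.le)
  refine (Finset.sum_le_sum h1).trans ?_
  rw [← Finset.mul_sum, ← Finset.sum_div]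
  refine mul_le_mul_of_nonneg_left ?_ (Nat.cast_nonneg _)
  exact div_le_div_of_nonneg_right (h x y (by omega) hxy) hlog.le

theorem g_le_half (S : Sys N G) (hY : ∀ q, 2 * S.D + 2 ≤ S.nm q) (q : S.Q) : S.g q ≤ 1 / 2 := by
  refine (S.g_le q).trans ?_
  have hn : (0 : ℝ) < S.nm q := by
    have := S.two_le q
    positivity
  rw [div_le_iff₀ hn]
  have : ((2 * S.D + 2 : ℕ) : ℝ) ≤ (S.nm q : ℝ) := by exact_mod_cast hY q
  push_cast at this
  linarith

open Classical in
theorem exp_le_prod (S : Sys N G) (hY : ∀ q, 2 * S.D + 2 ≤ S.nm q) (I : Finset S.Q) :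
    Real.exp (-(2 * ∑ q ∈ I, S.g q)) ≤ ∏ q ∈ I, (1 - S.g q) := by
  have : -(2 * ∑ q ∈ I, S.g q) = ∑ q ∈ I, -(2 * S.g q) := by
    rw [Finset.sum_neg_distrib, Finset.mul_sum]
  rw [this, Real.exp_sum]
  exact Finset.prod_le_prod (fun q _ => (Real.exp_pos _).le)
    (fun q _ => exp_le_one_sub (S.g_nonneg q) (g_le_half S hY q))

theorem V_nonneg (S : Sys N G) (hY : ∀ q, 2 * S.D + 2 ≤ S.nm q) (z : ℕ) : 0 ≤ S.V z :=
  Finset.prod_nonneg fun q _ => by linarith [g_le_half S hY q]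

theorem V_pos (S : Sys N G) (hY : ∀ q, 2 * S.D + 2 ≤ S.nm q) (z : ℕ) : 0 < S.V z :=
  Finset.prod_pos fun q _ => by linarith [g_le_half S hY q]

theorem V_le_one (S : Sys N G) (hY : ∀ q, 2 * S.D + 2 ≤ S.nm q) (z : ℕ) : S.V z ≤ 1 :=
  Finset.prod_le_one (fun q _ => by linarith [g_le_half S hY q])
    (fun q _ => by linarith [S.g_nonneg q])

open Classical in
theorem V_split (S : Sys N G) {w z : ℕ} (hwz : w ≤ z) :
    S.V z = S.V w * ∏ q ∈ (S.le z).filter (fun q => w < S.nm q), (1 - S.g q) := by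
  unfold Sys.V
  rw [← Finset.prod_filter_mul_prod_filter_not (S.le z) (fun q => S.nm q ≤ w)]
  congr 1
  · apply Finset.prod_congr _ (fun _ _ => rfl)
    ext q
    rw [mem_filter, S.mem_le, S.mem_le]
    exact ⟨fun h => h.2, fun h => ⟨h.trans hwz, h⟩⟩
  · apply Finset.prod_congr _ (fun _ _ => rfl)
    apply Finset.filter_congr
    intro q _
    exact not_le

theorem V_anti (S : Sys N G) (hY : ∀ q, 2 * S.D + 2 ≤ S.nm q) {w z : ℕ} (hwz : w ≤ z) :
    S.V z ≤ S.V w := by
  classical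
  rw [V_split S hwz]
  refine mul_le_of_le_one_right (V_nonneg S hY w) ?_
  exact Finset.prod_le_one (fun q _ => by linarith [g_le_half S hY q])
    (fun q _ => by linarith [S.g_nonneg q])

/-- **VRATIO.** `V w ≤ C' V z` for `w ≤ z ≤ w ^ A`. -/
theorem V_ratio (D : ℕ) (C : ℝ) (A : ℕ) : ∃ (Y0 : ℕ) (C' : ℝ), ∀ (N : ℕ) (G : Type)
    [AddCommGroup G] (S : Sys N G), S.D = D → (∀ q, Y0 ≤ S.nm q) → S.Mert C →
    ∀ w z : ℕ, 2 ≤ w → w ≤ z → z ≤ w ^ A → S.V w ≤ C' * S.V z := by
  classical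
  refine ⟨2 * D + 2, Real.exp (2 * (D * (max C 0 * (A + 2)))), ?_⟩
  intro N G _ S hD hY hM w z hw hwz hz
  subst hD
  have hM' := mert_max hM
  set C₀ := max C 0 with hC₀
  have hC0 : 0 ≤ C₀ := le_max_right _ _
  have hw1 : (1 : ℝ) < w := by exact_mod_cast hw
  have hlog : 0 < Real.log w := Real.log_pos hw1
  have hz0 : (0 : ℝ) < z := by
    have : 0 < z := by omega
    exact_mod_cast this
  have hlz : Real.log z ≤ A * Real.log w := by
    rw [← Real.log_pow]
    exact Real.log_le_log hz0 (by exact_mod_cast hz)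
  have hl2 : (1 : ℝ) ≤ 2 * Real.log w := by
    have h1 : Real.log 2 ≤ Real.log w := Real.log_le_log (by norm_num) (by exact_mod_cast hw)
    have h2 := Real.log_two_gt_d9
    linarith
  have hs := sum_g_le S hC0 hM' hw hwz
  have hs2 : ∑ q ∈ (S.le z).filter (fun q => w < S.nm q), S.g q ≤ S.D * (C₀ * (A + 2)) := by
    refine hs.trans (mul_le_mul_of_nonneg_left ?_ (Nat.cast_nonneg _))
    rw [div_le_iff₀ hlog, mul_assoc]
    refine mul_le_mul_of_nonneg_left ?_ hC0
    nlinarith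
  have hp := exp_le_prod S hY ((S.le z).filter (fun q => w < S.nm q))
  rw [V_split S hwz]
  have h3 : Real.exp (-(2 * (S.D * (C₀ * (A + 2))))) ≤
      ∏ q ∈ (S.le z).filter (fun q => w < S.nm q), (1 - S.g q) := by
    refine le_trans (Real.exp_le_exp.2 ?_) hp
    linarith
  have hV := V_nonneg S hY w
  calc S.V w = S.V w * (Real.exp (2 * (S.D * (C₀ * (A + 2)))) *
        Real.exp (-(2 * (S.D * (C₀ * (A + 2)))))) := by
        rw [← Real.exp_add, add_neg_cancel, Real.exp_zero, mul_one]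
    _ ≤ S.V w * (Real.exp (2 * (S.D * (C₀ * (A + 2)))) *
        ∏ q ∈ (S.le z).filter (fun q => w < S.nm q), (1 - S.g q)) :=
        mul_le_mul_of_nonneg_left (mul_le_mul_of_nonneg_left h3 (Real.exp_pos _).le) hV
    _ = _ := by ring

/-- **VLOWER.** `V z ≥ c z ^ (-δ)`. -/
theorem V_lower (D : ℕ) (C : ℝ) {δ : ℝ} (hδ : 0 < δ) : ∃ (Y0 : ℕ) (c : ℝ), 0 < c ∧ ∀ (N : ℕ)
    (G : Type) [AddCommGroup G] (S : Sys N G), S.D = D → (∀ q, Y0 ≤ S.nm q) → S.Mert C →
    ∀ z : ℕ, 1 ≤ z → c * (z : ℝ) ^ (-δ) ≤ S.V z := by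
  classical
  obtain ⟨x0, hx0⟩ := exists_nat_ge (Real.exp (2 * D * max C 0 / δ) + 2)
  refine ⟨x0 + 1 + (2 * D + 2), Real.exp (-δ), Real.exp_pos _, ?_⟩
  intro N G _ S hD hY hM z hz
  subst hD
  have hM' := mert_max hM
  set C₀ := max C 0 with hC₀
  have hC0 : 0 ≤ C₀ := le_max_right _ _
  have hY2 : ∀ q, 2 * S.D + 2 ≤ S.nm q := fun q => by have := hY q; omega
  have hz1 : (1 : ℝ) ≤ z := by exact_mod_cast hz
  have hz0 : (0 : ℝ) < z := by linarith
  have hx2 : 2 ≤ x0 := by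
    have h1 := Real.exp_pos (2 * S.D * C₀ / δ)
    have : (2 : ℝ) ≤ x0 := by linarith
    exact_mod_cast this
  have hlx : 2 * S.D * C₀ / δ ≤ Real.log x0 := by
    rw [Real.le_log_iff_exp_le (by positivity)]
    linarith
  have hlx0 : 0 < Real.log x0 := Real.log_pos (by exact_mod_cast hx2)
  have hlz : 0 ≤ Real.log z := Real.log_nonneg hz1
  have hall : (S.le z).filter (fun q => x0 < S.nm q) = S.le z := by
    apply Finset.filter_true_of_mem
    intro q _
    have := hY q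
    omega
  have hsum : ∑ q ∈ S.le z, S.g q ≤ δ / 2 * (Real.log z + 1) := by
    rcases le_or_gt x0 z with h | h
    · have hs := sum_g_le S hC0 hM' hx2 h
      rw [hall] at hs
      refine hs.trans ?_
      have h1 : (S.D : ℝ) * C₀ / Real.log x0 ≤ δ / 2 := by
        rw [div_le_iff₀ hlx0]
        rw [div_le_iff₀ hδ] at hlx
        linarith
      calc (S.D : ℝ) * (C₀ * (Real.log z - Real.log x0 + 1) / Real.log x0)
          = (S.D : ℝ) * C₀ / Real.log x0 * (Real.log z - Real.log x0 + 1) := by ring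
        _ ≤ (S.D : ℝ) * C₀ / Real.log x0 * (Real.log z + 1) := by
            apply mul_le_mul_of_nonneg_left (by linarith)
            positivity
        _ ≤ δ / 2 * (Real.log z + 1) := mul_le_mul_of_nonneg_right h1 (by linarith)
    · have : S.le z = ∅ := by
        apply Finset.eq_empty_of_forall_notMem
        intro q hq
        rw [S.mem_le] at hq
        have := hY q
        omega
      rw [this, Finset.sum_empty]
      positivity
  have hp := exp_le_prod S hY2 (S.le z)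
  have hV : S.V z = ∏ q ∈ S.le z, (1 - S.g q) := rfl
  rw [hV]
  refine le_trans ?_ hp
  rw [Real.rpow_def_of_pos hz0, ← Real.exp_add]
  apply Real.exp_le_exp.2
  linarith

end Pool.Agent.Helper49.CB
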