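import Pool.Agent.Helper23.CB.LatF
import Pool.Agent.Helper4.CB.STM

/-!
# CB, degree 3, window: the number of pairs (lattice, short vector)
-/

set_option autoImplicit false

namespace Pool.Agent.Helper49.CB

open Finset Module NumberField Polynomial Pool.Agent.Helper4.CB Pool.Agent.Helper23.CB

theorem card_small {n : ℕ} {O : Type} [CommRing O] (B : Basis (Fin n) ℤ O) (L : ℕ)
    (S : Finset (O × O)) (hS : ∀ w ∈ S, sz2 B w ≤ L) : S.card ≤ (2 * L + 1) ^ (2 * n) := by
  classical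
  let T : Finset (Fin n → ℤ) := Fintype.piFinset (fun _ : Fin n => Icc (-(L : ℤ)) L)
  have hT : T.card = (2 * L + 1) ^ n := by
    rw [Fintype.card_piFinset]
    simp only [Int.card_Icc, Finset.prod_const, Finset.card_univ, Fintype.card_fin]
    congr 1
    omega
  have h1 : S.card ≤ (T ×ˢ T).card := by
    refine Finset.card_le_card_of_injOn
      (fun w => ((fun i => B.repr w.1 i), (fun i => B.repr w.2 i))) ?_ ?_
    · intro w hw
      have h2 := sz2_le.1 (hS w hw)
      rw [sz_le, sz_le] at h2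
      rw [mem_coe, mem_product]
      constructor
      · rw [Fintype.mem_piFinset]
        intro i
        rw [mem_Icc]
        exact abs_le.1 (h2.1 i)
      · rw [Fintype.mem_piFinset]
        intro i
        rw [mem_Icc]
        exact abs_le.1 (h2.2 i)
    · intro w _ w' _ h
      rw [Prod.mk.injEq] at h
      have h3 : B.repr w.1 = B.repr w'.1 := by
        ext i
        exact congrFun h.1 i
      have h4 : B.repr w.2 = B.repr w'.2 := by
        ext i
        exact congrFun h.2 i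
      exact Prod.ext (B.repr.injective h3) (B.repr.injective h4)
  rw [Finset.card_product, hT, ← pow_add, ← two_mul] at h1
  exact h1

variable (K : Type) [Field K] [NumberField K]

theorem card_primes (h : 𝓞 K) (h0 : h ≠ 0) (S : Finset (Ideal (𝓞 K)))
    (hS : ∀ q ∈ S, q.IsPrime ∧ q ≠ ⊥ ∧ h ∈ q) :
    S.card ≤ Nat.log 2 (Ideal.absNorm (Ideal.span {h})) := by
  have h1 : ∏ q ∈ S, q ∣ Ideal.span {h} := by
    apply Finset.prod_primes_dvd
    · intro q hq
      exact Ideal.prime_of_isPrime (hS q hq).2.1 (hS q hq).1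
    · intro q hq
      rw [Ideal.dvd_span_singleton]
      exact (hS q hq).2.2
  have h2 : ∏ q ∈ S, Ideal.absNorm q ∣ Ideal.absNorm (Ideal.span {h}) := by
    rw [← map_prod]
    exact map_dvd Ideal.absNorm h1
  have hne : Ideal.absNorm (Ideal.span {h}) ≠ 0 := by
    rw [Ne, Ideal.absNorm_eq_zero_iff, Ideal.span_singleton_eq_bot]
    exact h0
  have h3 : 2 ^ S.card ≤ ∏ q ∈ S, Ideal.absNorm q := by
    rw [← Finset.prod_const]
    apply Finset.prod_le_prod' 
    intro q hq
    have e0 : Ideal.absNorm q ≠ 0 := by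
      rw [Ne, Ideal.absNorm_eq_zero_iff]
      exact (hS q hq).2.1
    have e1 : Ideal.absNorm q ≠ 1 := by
      rw [Ne, Ideal.absNorm_eq_one_iff]
      exact (hS q hq).1.ne_top
    omega
  exact Nat.le_log_of_pow_le (by norm_num) (h3.trans (Nat.le_of_dvd (Nat.pos_of_ne_zero hne) h2))

theorem card_root_classes (P : (𝓞 K)[X]) (hP : P.Monic) (q : Ideal (𝓞 K)) (hq : q.IsPrime)
    (A : Finset (𝓞 K)) (hA : ∀ t ∈ A, P.eval t ∈ q)
    (hinj : ∀ t ∈ A, ∀ t' ∈ A, t - t' ∈ q → t = t') : A.card ≤ P.natDegree := by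
  classical
  have hQ : (P.map (Ideal.Quotient.mk q)) ≠ 0 := (hP.map _).ne_zero
  have h1 : A.card ≤ (P.map (Ideal.Quotient.mk q)).roots.toFinset.card := by
    refine Finset.card_le_card_of_injOn (fun t => Ideal.Quotient.mk q t) ?_ ?_
    · intro t ht
      rw [mem_coe, Multiset.mem_toFinset, mem_roots hQ, IsRoot.def, eval_map, eval₂_at_apply,
        Ideal.Quotient.eq_zero_iff_mem]
      exact hA t ht
    · intro t ht t' ht' h
      exact hinj t ht t' ht' (Ideal.Quotient.eq.1 h)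
  refine h1.trans ((Multiset.toFinset_card_le _).trans ?_)
  refine (card_roots' _).trans ?_
  exact natDegree_map_le

/-- the number of pairs -/
theorem fibre_card {n : ℕ} (B : Basis (Fin n) ℤ (𝓞 K)) (P : (𝓞 K)[X]) (hP : P.Monic)
    (hv0 : ∀ (m : ℕ) (w : 𝓞 K × 𝓞 K), m ≠ 0 → w ≠ 0 → hv P w.1 (m * w.2) ≠ 0)
    (hvm : ∀ (m : ℕ) (b : Ideal (𝓞 K)) (t : 𝓞 K), P.eval t ∈ b → ∀ w : 𝓞 K × 𝓞 K,
      w ∈ Lam b (t * m) → hv P w.1 (m * w.2) ∈ b)
    (m : ℕ) (hm : m ≠ 0) (L H : ℕ)
    (hH : ∀ w : 𝓞 K × 𝓞 K, w ≠ 0 → sz2 B w ≤ L →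
      Ideal.absNorm (Ideal.span {hv P w.1 (m * w.2)}) ≤ H)
    (A : Finset (Ideal (𝓞 K) × 𝓞 K))
    (hA : ∀ x ∈ A, x.1.IsPrime ∧ x.1 ≠ ⊥ ∧ P.eval x.2 ∈ x.1)
    (hinj : ∀ x ∈ A, ∀ y ∈ A, x.1 = y.1 → x.2 - y.2 ∈ x.1 → x = y)
    (f : Ideal (𝓞 K) × 𝓞 K → 𝓞 K × 𝓞 K)
    (hf : ∀ x ∈ A, f x ≠ 0 ∧ f x ∈ Lam x.1 (x.2 * m) ∧ sz2 B (f x) ≤ L) :
    A.card ≤ (2 * L + 1) ^ (2 * n) * (P.natDegree * Nat.log 2 H) := by
  classical
  have h1 : A.card ≤ (P.natDegree * Nat.log 2 H) * (A.image f).card := by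
    apply Finset.card_le_mul_card_image
    intro w hw
    rw [mem_image] at hw
    obtain ⟨x0, hx0, rfl⟩ := hw
    obtain ⟨hw0, -, hwL⟩ := hf x0 hx0
    set w := f x0 with hwdef
    set F := A.filter (fun x => f x = w) with hF
    have h2 : F.card ≤ P.natDegree * (F.image Prod.fst).card := by
      apply Finset.card_le_mul_card_image
      intro q hq
      rw [mem_image] at hq
      obtain ⟨y0, hy0, rfl⟩ := hq
      set q := y0.1 with hqdef
      have hy0A : y0 ∈ A := (mem_filter.1 hy0).1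
      set E := F.filter (fun x => x.1 = q) with hE
      have hEA : ∀ x ∈ E, x ∈ A ∧ x.1 = q := by
        intro x hx
        rw [hE, mem_filter, hF, mem_filter] at hx
        exact ⟨hx.1.1, hx.2⟩
      have h3 : E.card = (E.image Prod.snd).card := by
        rw [Finset.card_image_of_injOn]
        intro x hx y hy h
        exact Prod.ext ((hEA x hx).2.trans (hEA y hy).2.symm) h
      rw [h3]
      refine card_root_classes K P hP q (hA y0 hy0A).1 _ ?_ ?_
      · intro t ht
        rw [mem_image] at ht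
        obtain ⟨x, hx, rfl⟩ := ht
        rw [← (hEA x hx).2]
        exact (hA x (hEA x hx).1).2.2
      · intro t ht t' ht' h
        rw [mem_image] at ht ht'
        obtain ⟨x, hx, rfl⟩ := ht
        obtain ⟨y, hy, rfl⟩ := ht'
        have hxy : x.1 = y.1 := (hEA x hx).2.trans (hEA y hy).2.symm
        rw [← (hEA x hx).2] at h
        rw [hinj x (hEA x hx).1 y (hEA y hy).1 hxy h]
    have h4 : (F.image Prod.fst).card ≤ Nat.log 2 H := by
      have hvw := hv0 m w hm hw0
      refine (card_primes K (hv P w.1 (m * w.2)) hvw _ ?_).trans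
        (Nat.log_mono_right (hH w hw0 hwL))
      intro q hq
      rw [mem_image] at hq
      obtain ⟨x, hx, rfl⟩ := hq
      rw [hF, mem_filter] at hx
      obtain ⟨hxA, hxw⟩ := hx
      refine ⟨(hA x hxA).1, (hA x hxA).2.1, ?_⟩
      refine hvm m x.1 x.2 (hA x hxA).2.2 w ?_
      rw [← hxw]
      exact (hf x hxA).2.1
    exact h2.trans (Nat.mul_le_mul_left _ h4)
  have h5 : (A.image f).card ≤ (2 * L + 1) ^ (2 * n) := by
    apply card_small B L
    intro w hw
    rw [mem_image] at hw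
    obtain ⟨x, hx, rfl⟩ := hw
    exact (hf x hx).2.2
  calc A.card ≤ (P.natDegree * Nat.log 2 H) * (A.image f).card := h1
    _ ≤ (P.natDegree * Nat.log 2 H) * (2 * L + 1) ^ (2 * n) := Nat.mul_le_mul_left _ h5
    _ = _ := by ring

end Pool.Agent.Helper49.CB
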